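import Pool.Agent.W312.WT.Stm

set_option autoImplicit false

namespace Pool.Agent.W701.WT

open Pool.Agent.W312.WT

lemma mem_prs {l : List ℕ} {q : ℕ × ℕ} : q ∈ prs l ↔ q.1 ∈ l ∧ q.2 ∈ l := by
  obtain ⟨a, b⟩ := q
  simp [prs]

lemma mem_keys {n : ℕ} {cand th : List ℕ} {k : Key} : k ∈ keys n cand th ↔
    (k.1.1 ∈ th ∧ k.1.2 ∈ th) ∧ (k.2.1.1 < n + 1 ∧ k.2.1.2 < n + 1) ∧
      (k.2.2.1 ∈ cand ∧ k.2.2.2 ∈ cand) := by
  unfold keys
  rw [List.mem_flatMap]
  constructor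
  · rintro ⟨h, hh, hk⟩
    rw [List.mem_flatMap] at hk
    obtain ⟨s, hs, hk⟩ := hk
    rw [List.mem_map] at hk
    obtain ⟨a, ha, rfl⟩ := hk
    rw [mem_prs] at hh hs ha
    rw [List.mem_range, List.mem_range] at hs
    exact ⟨hh, hs, ha⟩
  · rintro ⟨hh, hs, ha⟩
    refine ⟨k.1, mem_prs.2 hh, ?_⟩
    rw [List.mem_flatMap]
    refine ⟨k.2.1, mem_prs.2 ⟨List.mem_range.2 hs.1, List.mem_range.2 hs.2⟩, ?_⟩
    rw [List.mem_map]
    exact ⟨k.2.2, mem_prs.2 ha, rfl⟩

lemma mem_initE {n : ℕ} {cand th : List ℕ} {e : Ent} : e ∈ initE n cand th ↔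
    ∃ h s a, h ∈ prs th ∧ s < n + 1 ∧ a ∈ cand ∧ e = ((h, (s, s), (a, a)), []) := by
  unfold initE
  rw [List.mem_flatMap]
  constructor
  · rintro ⟨h, hh, hk⟩
    rw [List.mem_flatMap] at hk
    obtain ⟨s, hs, hk⟩ := hk
    rw [List.mem_map] at hk
    obtain ⟨a, ha, rfl⟩ := hk
    exact ⟨h, s, a, hh, List.mem_range.1 hs, ha, rfl⟩
  · rintro ⟨h, s, a, hh, hs, ha, rfl⟩
    refine ⟨h, hh, ?_⟩
    rw [List.mem_flatMap]
    refine ⟨s, List.mem_range.2 hs, ?_⟩
    rw [List.mem_map]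
    exact ⟨a, ha, rfl⟩

theorem proof_SIni : Pool.Agent.W312.WT.SIni := by
  intro p n cand th
  constructor
  · intro e he
    obtain ⟨h, s, a, hh, hs, ha, rfl⟩ := mem_initE.1 he
    refine ⟨⟨?_, ?_, ?_, ?_⟩, ?_⟩
    · simp
    · simp [ChnT]
    · simp [lastT]
    · simp
    · rw [mem_keys]
      exact ⟨mem_prs.1 hh, ⟨hs, hs⟩, ⟨ha, ha⟩⟩
  · intro h₁ hh₁ h₂ hh₂ _ s a ha l hl hs _ _
    have hl' : l = [] := by
      rw [List.filter_nil] at hl
      have := hl.eq_nil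
      exact List.map_eq_nil_iff.1 this
    subst hl'
    refine ⟨(((h₁, h₂), (s, s), (a, a)), []), ?_, ?_, ?_⟩
    · rw [mem_initE]
      refine ⟨(h₁, h₂), s, a, mem_prs.2 ⟨hh₁, hh₂⟩, ?_, ha, rfl⟩
      simp only [List.length_nil, add_zero] at hs
      omega
    · simp [lastT]
    · exact le_rfl

lemma insW_perm (acc : List Jb) (x : Jb) : (insW acc x).Perm (x :: acc) := by
  unfold insW
  refine List.perm_middle.trans (List.Perm.cons x ?_)
  have h : acc.filter (fun y => decide (y.1 < x.1))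
      = acc.filter (fun y => !(decide (x.1 ≤ y.1))) := by
    apply List.filter_congr
    intro y _
    by_cases h : x.1 ≤ y.1
    · simp [h]
    · simp [h]
      omega
  rw [h]
  exact List.filter_append_perm _ _

lemma insW_sorted (acc : List Jb) (x : Jb) (h : acc.Pairwise fun x y => y.1 ≤ x.1) :
    (insW acc x).Pairwise fun x y => y.1 ≤ x.1 := by
  unfold insW
  rw [List.pairwise_append]
  refine ⟨h.filter _, ?_, ?_⟩
  · rw [List.pairwise_cons]
    refine ⟨fun y hy => ?_, h.filter _⟩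
    rw [List.mem_filter] at hy
    exact (of_decide_eq_true hy.2).le
  · intro a ha b hb
    rw [List.mem_filter] at ha
    have h1 : x.1 ≤ a.1 := of_decide_eq_true ha.2
    rcases List.mem_cons.1 hb with rfl | hb
    · exact h1
    · rw [List.mem_filter] at hb
      have h2 : b.1 < x.1 := of_decide_eq_true hb.2
      omega

lemma foldl_insW (L : List Jb) : ∀ acc : List Jb, (acc.Pairwise fun x y => y.1 ≤ x.1) →
    (L.foldl insW acc).Perm (L ++ acc) ∧ (L.foldl insW acc).Pairwise fun x y => y.1 ≤ x.1 := by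
  induction L with
  | nil => intro acc h; exact ⟨List.Perm.refl _, h⟩
  | cons x L ih =>
    intro acc h
    obtain ⟨h1, h2⟩ := ih (insW acc x) (insW_sorted acc x h)
    refine ⟨?_, h2⟩
    rw [List.foldl_cons]
    refine h1.trans ?_
    refine ((insW_perm acc x).append_left L).trans ?_
    rw [List.cons_append]
    exact List.perm_middle

theorem proof_SSrw : Pool.Agent.W312.WT.SSrw := by
  intro L
  obtain ⟨h1, h2⟩ := foldl_insW L [] List.Pairwise.nil
  rw [List.append_nil] at h1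
  exact ⟨h1, h2⟩

end Pool.Agent.W701.WT
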